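import Pool.Agent.Q297.PFC.Main

/-!
# MP_156542_lc, Q1

For every nonempty index set there is a modal formula (transitivity plus McKinsey, for one of the
boxes) that has a first-order correspondent over Kripke frames and no first-order correspondent
over full possibility frames.
-/

namespace Pool.Agent.Results.MP_156542_lc.NoCorrespondent

open Pool.Agent.Q297.PFC

/-- For every nonempty index set `I` there is a polymodal formula `A` whose validity on Kripke
frames is defined by a first-order sentence `α` in the accessibility relations, while no
first-order sentence `β` in the refinement order and the accessibility relations defines validity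
of `A` on full possibility frames. -/
theorem result (I : Type) [Nonempty I] : ∃ A : Form I,
    (∃ α : (Lk I).Sentence, ∀ (W : Type) [Nonempty W] (R : I → W → W → Prop),
      KValid R A ↔ KHolds R α) ∧
    ¬ ∃ β : (Lp I).Sentence, ∀ (S : Type) [Nonempty S] [PartialOrder S] (R : I → S → S → Prop),
      IsFull R → (PValid R A ↔ PHolds R β) :=
  main I

end Pool.Agent.Results.MP_156542_lc.NoCorrespondent
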